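import Mathlib
import Pool.Agent.Helper40.Nil.Stmts

/-! Module LEIB of project Nil: products and inverses of polynomial maps. -/

namespace Pool.Agent.Helper40.Nil

universe u

theorem leib_monok {D : Type} [AddCommGroup D] {V : Type u} [Group V] (F : Filt V) (l : ℕ) :
    ∀ (k k' : ℕ), k ≤ k' → ∀ u : D → V, PolyN F.F l k' u → PolyN F.F l k u := by
  induction l with
  | zero => intro k k' h u hu x; exact F.anti h (hu x)
  | succ l ih =>
    intro k k' h u hu
    exact ⟨fun x => F.anti h (hu.1 x), fun t => ih (k + 1) (k' + 1) (by omega) _ (hu.2 t)⟩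

theorem leib_monol {D : Type} [AddCommGroup D] {V : Type u} [Group V] (F : ℕ → Subgroup V)
    (l : ℕ) : ∀ (k : ℕ) (u : D → V), PolyN F (l + 1) k u → PolyN F l k u := by
  induction l with
  | zero => intro k u hu; exact hu.1
  | succ l ih => intro k u hu; exact ⟨hu.1, fun t => ih (k + 1) _ (hu.2 t)⟩

theorem leib_main {D : Type} [AddCommGroup D] {V : Type u} [Group V] (F : Filt V) (l : ℕ) :
    (∀ (k : ℕ) (u v : D → V), PolyN F.F l k u → PolyN F.F l k v →
      PolyN F.F l k (fun x => u x * v x) ∧ PolyN F.F l k (fun x => (u x)⁻¹)) ∧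
    (∀ (i j : ℕ) (u v : D → V), PolyN F.F l i u → PolyN F.F l j v →
      PolyN F.F l (i + j) (fun x => u x * v x * (u x)⁻¹ * (v x)⁻¹)) := by
  induction l with
  | zero =>
    refine ⟨fun k u v hu hv => ⟨fun x => mul_mem (hu x) (hv x), fun x => inv_mem (hu x)⟩, ?_⟩
    intro i j u v hu hv x
    exact F.comm i j _ (hu x) _ (hv x)
  | succ l ih =>
    obtain ⟨A, B⟩ := ih
    have hmul : ∀ (k : ℕ) (u v : D → V), PolyN F.F l k u → PolyN F.F l k v →
      PolyN F.F l k (fun x => u x * v x) := fun k u v hu hv => (A k u v hu hv).1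
    have hinv : ∀ (k : ℕ) (u : D → V), PolyN F.F l k u →
      PolyN F.F l k (fun x => (u x)⁻¹) := fun k u hu => (A k u u hu hu).2
    refine ⟨?_, ?_⟩
    · intro k u v hu hv
      have hu0 := leib_monol F.F l k u hu
      have hv0 := leib_monol F.F l k v hv
      refine ⟨⟨fun x => mul_mem (hu.1 x) (hv.1 x), fun h => ?_⟩,
        ⟨fun x => inv_mem (hu.1 x), fun h => ?_⟩⟩
      · have h1 := hu.2 h
        have h2 := hv.2 h
        have h3 := leib_monok F l (k + 1) (k + (k + 1)) (by omega) _ (B k (k + 1) u (dd h v) hu0 h2)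
        have h4 := hmul _ _ _ (hmul _ _ _ h1 h3) h2
        have e : dd h (fun x => u x * v x) = (fun x => dd h u x *
            (u x * dd h v x * (u x)⁻¹ * (dd h v x)⁻¹) * dd h v x) := by
          funext x; simp only [dd]; group
        rw [e]; exact h4
      · have h1 := hu.2 h
        have h2 := hinv _ _ hu0
        have h3 := hinv _ _ h1
        have h4 := leib_monok F l (k + 1) (k + (k + 1)) (by omega) _ (B k (k + 1) _ _ h2 h3)
        have h5 := hmul _ _ _ h4 h3
        have e : dd h (fun x => (u x)⁻¹) = (fun x => (u x)⁻¹ * (dd h u x)⁻¹ * ((u x)⁻¹)⁻¹ *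
            ((dd h u x)⁻¹)⁻¹ * (dd h u x)⁻¹) := by
          funext x; simp only [dd]; group
        rw [e]; exact h5
    · intro i j u v hu hv
      have hu0 := leib_monol F.F l i u hu
      have hv0 := leib_monol F.F l j v hv
      refine ⟨fun x => F.comm i j _ (hu.1 x) _ (hv.1 x), fun h => ?_⟩
      have hu' := hu.2 h
      have hv' := hv.2 h
      -- [u, v']
      have a1 := B i (j + 1) u (dd h v) hu0 hv'
      have a2 := B (i + 1) (i + (j + 1)) _ _ hu' a1
      have g1 := hmul _ _ _ (leib_monok F l 1 (i + 1) (by omega) _ hu')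
        (leib_monok F l 1 (j + 1) (by omega) _ hv')
      have w := B i j u v hu0 hv0
      have a3 := B 1 (i + j) _ _ g1 w
      have c := hmul _ _ _ (leib_monok F l j (j + 1) (by omega) _ hv') hv0
      have a4 := B (i + 1) j _ _ hu' c
      have a5 := B (i + j) (i + 1 + j) _ _ w a4
      have b1 := leib_monok F l (i + j + 1) (i + (j + 1)) (by omega) _ a1
      have b2 := leib_monok F l (i + j + 1) (i + 1 + (i + (j + 1))) (by omega) _ a2
      have b3 := leib_monok F l (i + j + 1) (1 + (i + j)) (by omega) _ a3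
      have b4 := leib_monok F l (i + j + 1) (i + 1 + j) (by omega) _ a4
      have b5 := leib_monok F l (i + j + 1) (i + j + (i + 1 + j)) (by omega) _ a5
      have b6 := hmul _ _ _ (hmul _ _ _ (hmul _ _ _ (hmul _ _ _ b2 b1) b3) b5) b4
      refine cast ?_ b6
      congr 1
      funext x
      simp only [dd]
      group

theorem st_LEIB : ST_LEIB.{u} := by
  intro D _ V _ F k u v hu hv
  exact ⟨fun l => ((leib_main F l).1 k u v (hu l) (hv l)).1,
    fun l => ((leib_main F l).1 k u u (hu l) (hu l)).2⟩

end Pool.Agent.Helper40.Nil
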