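import Mathlib
import Pool.Agent.Helper40.Nil.Stmts

/-! Module PER of project Nil: polynomial maps to groups of finite exponent are periodic. -/

namespace Pool.Agent.Helper40.Nil

universe u

theorem per_one {D : Type} [AddCommGroup D] {V : Type u} [Group V] (F : Filt V) {s : ℕ}
    (hs : F.F s = ⊥) {k : ℕ} (hk : s ≤ k) (v : D → V) (hv : Poly F.F k v) (x : D) : v x = 1 := by
  have h1 : v x ∈ F.F k := hv 0 x
  have h2 := F.anti hk h1
  rw [hs] at h2
  exact Subgroup.mem_bot.mp h2

theorem per_dd {D : Type} [AddCommGroup D] {V : Type u} [Group V] (F : ℕ → Subgroup V) {k : ℕ}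
    (v : D → V) (hv : Poly F k v) (h : D) : Poly F (k + 1) (dd h v) :=
  fun l => (hv (l + 1)).2 h

theorem per_main {D : Type} [AddCommGroup D] {V : Type u} [Group V] (F : Filt V) {s : ℕ}
    (hs : F.F s = ⊥) (e : ℕ) (he : 1 ≤ e) (hexp : ∀ y : V, y ^ e = 1) (j : ℕ) :
    ∀ k : ℕ, s ≤ k + j → ∃ M : ℕ, 1 ≤ M ∧ ∀ v : D → V, Poly F.F k v →
      ∀ x h : D, v (x + M • h) = v x := by
  induction j with
  | zero =>
    intro k hk
    refine ⟨1, le_rfl, fun v hv x h => ?_⟩
    rw [per_one F hs (by omega) v hv, per_one F hs (by omega) v hv]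
  | succ j ih =>
    intro k hk
    obtain ⟨M, hM, H⟩ := ih (k + 1) (by omega)
    refine ⟨e * M, Nat.mul_pos he hM, fun v hv x h => ?_⟩
    have hw := H (dd (M • h) v) (per_dd F.F v hv (M • h))
    have hstep : ∀ y : D, v (y + M • h) = dd (M • h) v y * v y := by
      intro y; simp [dd]
    have key : ∀ a : ℕ, v (x + a • (M • h)) = (dd (M • h) v x) ^ a * v x := by
      intro a
      induction a with
      | zero => simp
      | succ a iha =>
        have e1 : x + (a + 1) • (M • h) = (x + a • (M • h)) + M • h := by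
          rw [succ_nsmul]; abel
        rw [e1, hstep, iha]
        have e2 : x + a • (M • h) = x + M • (a • h) := by
          rw [← mul_nsmul, ← mul_nsmul, mul_comm]
        rw [e2, hw x (a • h), pow_succ']
        group
    have h3 := key e
    rw [hexp, one_mul] at h3
    rw [mul_nsmul', h3]

theorem st_PER : ST_PER.{u} := by
  intro D _ V _ u hu e he hexp
  obtain ⟨F, hF⟩ := hu
  obtain ⟨s, hs⟩ := F.len
  obtain ⟨M, hM, H⟩ := per_main (D := D) F hs e he hexp s 0 (by omega)
  exact ⟨M, hM, H u hF⟩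

end Pool.Agent.Helper40.Nil
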