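import Mathlib
import Pool.Agent.Helper40.Nil.Stmts

/-! Module PERT of project Nil: periodic polynomial maps to commutative groups are torsion. -/

namespace Pool.Agent.Helper40.Nil

universe u

theorem pert_main {D : Type} [AddCommGroup D] {T : Type u} [CommGroup T] (F : Filt T) {s : ℕ}
    (hs : F.F s = ⊥) (M : ℕ) (j : ℕ) :
    ∀ k : ℕ, s ≤ k + j → ∀ v : D → T, Poly F.F k v → (∀ x h : D, v (x + M • h) = v x) →
      ∀ x : D, (v x * (v 0)⁻¹) ^ (M ^ j) = 1 := by
  induction j with
  | zero =>
    intro k hk v hv _ x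
    have h1 : ∀ y : D, v y = 1 := by
      intro y
      have h1 : v y ∈ F.F k := hv 0 y
      have h2 := F.anti (show s ≤ k by omega) h1
      rw [hs] at h2
      exact Subgroup.mem_bot.mp h2
    simp [h1]
  | succ j ih =>
    intro k hk v hv hper x
    have hd : ∀ h y : D, (dd h v y * (dd h v 0)⁻¹) ^ (M ^ j) = 1 := by
      intro h y
      refine ih (k + 1) (by omega) (dd h v) (fun l => (hv (l + 1)).2 h) ?_ y
      intro x h'
      simp only [dd]
      rw [hper x h', show x + M • h' + h = (x + h) + M • h' by abel, hper]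
    set w : D → T := fun y => v y ^ (M ^ j) with hw
    have hadd : ∀ y h : D, w (y + h) = (w h * (w 0)⁻¹) * w y := by
      intro y h
      have h1 := hd h y
      simp only [dd, zero_add] at h1
      simp only [hw]
      have h2 : (v (y + h)) ^ (M ^ j) * ((v y) ^ (M ^ j))⁻¹ *
          (v h ^ (M ^ j) * (v 0 ^ (M ^ j))⁻¹)⁻¹ = 1 := by
        rw [← h1]
        simp only [mul_pow, inv_pow, mul_inv_rev, inv_inv]
      have h3 := mul_inv_eq_one.mp h2
      rw [← h3]; simp
    have hchi : ∀ (a : ℕ) (h : D), w (a • h) = (w h * (w 0)⁻¹) ^ a * w 0 := by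
      intro a h
      induction a with
      | zero => simp
      | succ a iha =>
        rw [succ_nsmul, hadd, iha, pow_succ']
        group
    have h4 := hchi M x
    have h5 : w (M • x) = w 0 := by
      simp only [hw]
      have := hper 0 x
      rw [zero_add] at this
      rw [this]
    rw [h5] at h4
    have h6 : (w x * (w 0)⁻¹) ^ M = 1 := by
      have := mul_right_cancel (a := (1 : T)) (b := w 0) (c := (w x * (w 0)⁻¹) ^ M) (by
        rw [one_mul]; exact h4)
      exact this.symm
    rw [pow_succ, pow_mul]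
    rw [← h6]
    simp only [hw, mul_pow, inv_pow]

theorem st_PERT : ST_PERT.{u} := by
  intro D _ T _ u hu M hM hper
  obtain ⟨F, hF⟩ := hu
  obtain ⟨s, hs⟩ := F.len
  exact ⟨M ^ s, Nat.pow_pos hM, pert_main F hs M s 0 (by omega) u hF hper⟩

end Pool.Agent.Helper40.Nil
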